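import Pool.Agent.W186.AI.Spec

set_option autoImplicit false

namespace Pool.Agent.W460.AI.SGD

open Complex Filter Topology Metric Set Pool.Agent.W186.AI
open scoped Real

noncomputable def ex (σ : ℝ) (c : ℂ) (p : Nat.Primes) (t : ℂ) : ℂ :=
  ((p : ℕ) : ℂ) ^ (-((σ : ℂ) + c * t))

noncomputable def u (p : Nat.Primes) : ℝ := ((p : ℕ) : ℝ) ^ (-8 : ℝ)

lemma summable_u : Summable u := Nat.Primes.summable_rpow.mpr (by norm_num)

lemma u_nonneg (p : Nat.Primes) : 0 ≤ u p := by unfold u; positivity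

lemma u_le (p : Nat.Primes) : u p ≤ (1 / 64) * (1 / ((p : ℕ) : ℝ) ^ 2) := by
  unfold u
  have h2 : (2 : ℝ) ≤ (p : ℕ) := by exact_mod_cast p.2.two_le
  rw [Real.rpow_neg (by positivity), show (8 : ℝ) = ((8 : ℕ) : ℝ) by norm_num, Real.rpow_natCast]
  have h6 : (64 : ℝ) ≤ ((p : ℕ) : ℝ) ^ 6 := by
    calc (64 : ℝ) = 2 ^ 6 := by norm_num
      _ ≤ _ := pow_le_pow_left₀ (by norm_num) h2 6
  rw [inv_eq_one_div, div_mul_div_comm, one_mul]
  apply div_le_div_of_nonneg_left (by norm_num) (by positivity)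
  calc 64 * ((p : ℕ) : ℝ) ^ 2 ≤ ((p : ℕ) : ℝ) ^ 6 * ((p : ℕ) : ℝ) ^ 2 :=
        mul_le_mul_of_nonneg_right h6 (by positivity)
    _ = _ := by ring

lemma u_le_one (p : Nat.Primes) : u p ≤ 1 := by
  refine (u_le p).trans ?_
  have h2 : (2 : ℝ) ≤ (p : ℕ) := by exact_mod_cast p.2.two_le
  have h3 : 1 / ((p : ℕ) : ℝ) ^ 2 ≤ 1 := by
    rw [div_le_one (by positivity)]
    nlinarith
  linarith

lemma tsum_u : ∑' p, u p ≤ 1 / 8 := by
  have h1 : Summable (fun n : ℕ => 1 / (n : ℝ) ^ 2) := hasSum_zeta_two.summable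
  have h2 : ∑' p : Nat.Primes, (1 / ((p : ℕ) : ℝ) ^ 2) ≤ π ^ 2 / 6 := by
    rw [← hasSum_zeta_two.tsum_eq]
    exact tsum_comp_le_tsum_of_inj h1 (fun _ => by positivity) Nat.Primes.coe_nat_injective
  have h3 : Summable (fun p : Nat.Primes => 1 / ((p : ℕ) : ℝ) ^ 2) :=
    h1.comp_injective Nat.Primes.coe_nat_injective
  have h4 : ∑' p, u p ≤ ∑' p : Nat.Primes, (1 / 64) * (1 / ((p : ℕ) : ℝ) ^ 2) :=
    summable_u.tsum_le_tsum u_le (h3.mul_left _)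
  rw [tsum_mul_left] at h4
  have h5 : π ^ 2 ≤ 16 := by nlinarith [Real.pi_le_four, Real.pi_pos]
  linarith

lemma ex_norm (σ : ℝ) (hσ : 10 ≤ σ) (c : ℂ) (hc : ‖c‖ ≤ 1) (p : Nat.Primes) (t : ℂ)
    (ht : ‖t‖ < 1) : ‖ex σ c p t‖ ≤ u p / (p : ℕ) := by
  unfold ex
  have hp : (1 : ℝ) ≤ (p : ℕ) := by exact_mod_cast p.2.one_lt.le
  rw [Complex.norm_natCast_cpow_of_pos p.2.pos]
  have h0 : u p / (p : ℕ) = ((p : ℕ) : ℝ) ^ (-9 : ℝ) := by
    unfold u
    rw [div_eq_mul_inv, ← Real.rpow_neg_one, ← Real.rpow_add (by linarith)]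
    norm_num
  rw [h0]
  apply Real.rpow_le_rpow_of_exponent_le hp
  have h1 : |(c * t).re| ≤ ‖c * t‖ := Complex.abs_re_le_norm _
  have h2 : ‖c * t‖ ≤ 1 := by
    rw [norm_mul]
    exact mul_le_one₀ hc (norm_nonneg _) ht.le
  have h3 := (abs_le.mp (h1.trans h2)).1
  simp only [neg_re, add_re, ofReal_re]
  linarith

lemma zex_norm (σ : ℝ) (hσ : 10 ≤ σ) (c : ℂ) (hc : ‖c‖ ≤ 1) (p : Nat.Primes) (t : ℂ)
    (ht : ‖t‖ < 1) (z : ℂ) (hz : ‖z‖ ≤ 1) : ‖z * ex σ c p t‖ ≤ u p / (p : ℕ) := by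
  rw [norm_mul]
  calc ‖z‖ * ‖ex σ c p t‖ ≤ 1 * ‖ex σ c p t‖ := mul_le_mul_of_nonneg_right hz (norm_nonneg _)
    _ = ‖ex σ c p t‖ := one_mul _
    _ ≤ _ := ex_norm σ hσ c hc p t ht

lemma up_le_half (p : Nat.Primes) : u p / (p : ℕ) ≤ 1 / 2 := by
  have h2 : (2 : ℝ) ≤ (p : ℕ) := by exact_mod_cast p.2.two_le
  rw [div_le_iff₀ (by linarith)]
  have := u_le_one p
  linarith

lemma up_le (p : Nat.Primes) : u p / (p : ℕ) ≤ u p :=
  div_le_self (u_nonneg p) (by exact_mod_cast p.2.one_lt.le)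

noncomputable def L (σ : ℝ) (c : ℂ) (p : Nat.Primes) (z t : ℂ) : ℂ := log (1 - z * ex σ c p t)

lemma slit (σ : ℝ) (hσ : 10 ≤ σ) (c : ℂ) (hc : ‖c‖ ≤ 1) (p : Nat.Primes) (t : ℂ)
    (ht : ‖t‖ < 1) (z : ℂ) (hz : ‖z‖ ≤ 1) : 1 - z * ex σ c p t ∈ slitPlane := by
  rw [sub_eq_add_neg]
  apply mem_slitPlane_of_norm_lt_one
  rw [norm_neg]
  have h1 := zex_norm σ hσ c hc p t ht z hz
  have h2 := up_le_half p
  linarith

lemma L_norm (σ : ℝ) (hσ : 10 ≤ σ) (c : ℂ) (hc : ‖c‖ ≤ 1) (p : Nat.Primes) (t : ℂ)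
    (ht : ‖t‖ < 1) (z : ℂ) (hz : ‖z‖ ≤ 1) : ‖L σ c p z t‖ ≤ (3 / 2) * u p := by
  unfold L
  rw [sub_eq_add_neg]
  have h1 := zex_norm σ hσ c hc p t ht z hz
  have h2 := up_le_half p
  have h3 := up_le p
  refine (norm_log_one_add_half_le_self ?_).trans ?_
  · rw [norm_neg]
    linarith
  · rw [norm_neg]
    linarith

lemma L_deriv (σ : ℝ) (hσ : 10 ≤ σ) (c : ℂ) (hc : ‖c‖ ≤ 1) (p : Nat.Primes) (t : ℂ)
    (ht : ‖t‖ < 1) (z : ℂ) (hz : ‖z‖ ≤ 1) :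
    ∃ D : ℂ, HasDerivAt (L σ c p z) D t ∧ ‖D‖ ≤ 2 * u p := by
  have hp0 : ((p : ℕ) : ℂ) ≠ 0 := by exact_mod_cast p.2.ne_zero
  have hp1 : (1 : ℝ) ≤ (p : ℕ) := by exact_mod_cast p.2.one_lt.le
  have h1 : HasDerivAt (fun t : ℂ => -((σ : ℂ) + c * t)) (-(c * 1)) t :=
    (((hasDerivAt_id t).const_mul c).const_add (σ : ℂ)).neg
  have h2 : HasDerivAt (ex σ c p) (ex σ c p t * log ((p : ℕ) : ℂ) * (-(c * 1))) t :=
    h1.const_cpow (Or.inl hp0)
  have h3 : HasDerivAt (fun t => 1 - z * ex σ c p t)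
      (-(z * (ex σ c p t * log ((p : ℕ) : ℂ) * (-(c * 1))))) t :=
    (h2.const_mul z).const_sub 1
  refine ⟨_, h3.clog (slit σ hσ c hc p t ht z hz), ?_⟩
  have h4 := zex_norm σ hσ c hc p t ht z hz
  have h5 := up_le_half p
  have h6 : (1 / 2 : ℝ) ≤ ‖1 - z * ex σ c p t‖ := by
    have := norm_sub_norm_le (1 : ℂ) (z * ex σ c p t)
    rw [norm_one] at this
    linarith
  have h7 : ‖log ((p : ℕ) : ℂ)‖ ≤ (p : ℕ) := by
    rw [← Complex.natCast_log, Complex.norm_real, Real.norm_eq_abs,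
      abs_of_nonneg (Real.log_nonneg hp1)]
    exact Real.log_le_self (by positivity)
  have h8 : -(z * (ex σ c p t * log ((p : ℕ) : ℂ) * (-(c * 1)))) =
      (z * ex σ c p t) * log ((p : ℕ) : ℂ) * c := by ring
  rw [h8, norm_div, norm_mul, norm_mul, div_le_iff₀ (by linarith)]
  have h9 : ‖z * ex σ c p t‖ * ‖log ((p : ℕ) : ℂ)‖ * ‖c‖ ≤ u p := by
    calc ‖z * ex σ c p t‖ * ‖log ((p : ℕ) : ℂ)‖ * ‖c‖
        ≤ ‖z * ex σ c p t‖ * ‖log ((p : ℕ) : ℂ)‖ * 1 :=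
          mul_le_mul_of_nonneg_left hc (by positivity)
      _ = ‖z * ex σ c p t‖ * ‖log ((p : ℕ) : ℂ)‖ := mul_one _
      _ ≤ (u p / (p : ℕ)) * (p : ℕ) := mul_le_mul h4 h7 (norm_nonneg _)
          (div_nonneg (u_nonneg p) (by positivity))
      _ = u p := div_mul_cancel₀ _ (by positivity)
  have h10 := u_nonneg p
  nlinarith

lemma L_lip (σ : ℝ) (hσ : 10 ≤ σ) (c : ℂ) (hc : ‖c‖ ≤ 1) (p : Nat.Primes) (z : ℂ) (hz : ‖z‖ ≤ 1)
    (s t : ℂ) (hs : s ∈ ball (0 : ℂ) 1) (ht : t ∈ ball (0 : ℂ) 1) :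
    ‖L σ c p z s - L σ c p z t‖ ≤ 2 * u p * ‖s - t‖ := by
  have hD : ∀ x ∈ ball (0 : ℂ) 1, ∃ D : ℂ, HasDerivAt (L σ c p z) D x ∧ ‖D‖ ≤ 2 * u p :=
    fun x hx => L_deriv σ hσ c hc p x (by simpa using hx) z hz
  choose! D hD1 hD2 using hD
  exact Convex.norm_image_sub_le_of_norm_hasDerivWithin_le (f := L σ c p z) (f' := D)
    (fun x hx => (hD1 x hx).hasDerivWithinAt) hD2 (convex_ball 0 1) ht hs

/-- the terms of the series -/
noncomputable def h (σ : ℝ) (p : Nat.Primes) (z t : ℂ) : ℂ := L σ I p z t - L σ (-I) p z t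

lemma S_eq (σ : ℝ) (ω : Nat.Primes → ℂ) (t : ℂ) :
    S σ ω t = (∑' p : Nat.Primes, h σ p (ω p) t) / (2 * I) := by
  unfold S h L ex
  refine congrArg (fun x => x / (2 * I)) (tsum_congr fun p => ?_)
  rw [neg_mul I t, ← sub_eq_add_neg]

lemma nI : ‖I‖ ≤ 1 := by simp

lemma nI' : ‖-I‖ ≤ 1 := by simp

lemma h_norm (σ : ℝ) (hσ : 10 ≤ σ) (p : Nat.Primes) (t : ℂ)
    (ht : ‖t‖ < 1) (z : ℂ) (hz : ‖z‖ ≤ 1) : ‖h σ p z t‖ ≤ 3 * u p := by
  unfold h
  have h1 := L_norm σ hσ I nI p t ht z hz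
  have h2 := L_norm σ hσ (-I) nI' p t ht z hz
  have h3 := norm_sub_le (L σ I p z t) (L σ (-I) p z t)
  linarith

lemma h_lip (σ : ℝ) (hσ : 10 ≤ σ) (p : Nat.Primes) (z : ℂ) (hz : ‖z‖ ≤ 1)
    (s t : ℂ) (hs : s ∈ ball (0 : ℂ) 1) (ht : t ∈ ball (0 : ℂ) 1) :
    ‖h σ p z s - h σ p z t‖ ≤ 4 * ‖s - t‖ * u p := by
  unfold h
  have h1 := L_lip σ hσ I nI p z hz s t hs ht
  have h2 := L_lip σ hσ (-I) nI' p z hz s t hs ht
  have h3 := norm_sub_le (L σ I p z s - L σ I p z t) (L σ (-I) p z s - L σ (-I) p z t)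
  have h4 : L σ I p z s - L σ (-I) p z s - (L σ I p z t - L σ (-I) p z t) =
      (L σ I p z s - L σ I p z t) - (L σ (-I) p z s - L σ (-I) p z t) := by ring
  rw [h4]
  linarith

lemma n2I : ‖(2 * I : ℂ)‖ = 2 := by simp

theorem main : S_SGD := by
  intro σ hσ
  constructor
  · intro ω hω
    refine ⟨⟨?_, ?_⟩, ?_⟩
    · intro t ht
      have ht' : ‖t‖ < 1 := by simpa using ht
      rw [S_eq, norm_div, n2I]
      have h1 := tsum_of_norm_bounded (summable_u.mul_left 3).hasSum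
        (fun p => h_norm σ hσ p t ht' (ω p) (hω p))
      rw [tsum_mul_left] at h1
      have h2 := tsum_u
      linarith
    · intro t ht s hs
      have ht' : ‖t‖ < 1 := by simpa using ht
      have hs' : ‖s‖ < 1 := by simpa using hs
      have hsum : ∀ x : ℂ, ‖x‖ < 1 → Summable (fun p => h σ p (ω p) x) := fun x hx =>
        Summable.of_norm_bounded (summable_u.mul_left 3) (fun p => h_norm σ hσ p x hx (ω p) (hω p))
      rw [S_eq, S_eq, ← sub_div, ← (hsum t ht').tsum_sub (hsum s hs'), norm_div, n2I]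
      have h1 := tsum_of_norm_bounded (summable_u.mul_left (4 * ‖t - s‖)).hasSum
        (fun p => h_lip σ hσ p (ω p) (hω p) t s ht hs)
      rw [tsum_mul_left] at h1
      have h2 := tsum_u
      have h3 := norm_nonneg (t - s)
      nlinarith
    · have h1 : S σ ω = fun t => (∑' p : Nat.Primes, h σ p (ω p) t) / (2 * I) := by
        funext t
        exact S_eq σ ω t
      rw [h1]
      refine DifferentiableOn.div_const ?_ _
      refine differentiableOn_tsum_of_summable_norm (summable_u.mul_left 3) ?_ isOpen_ball ?_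
      · intro p t ht
        have ht' : ‖t‖ < 1 := by simpa using ht
        obtain ⟨D1, hD1, _⟩ := L_deriv σ hσ I nI p t ht' (ω p) (hω p)
        obtain ⟨D2, hD2, _⟩ := L_deriv σ hσ (-I) nI' p t ht' (ω p) (hω p)
        exact (hD1.sub hD2).differentiableAt.differentiableWithinAt
      · intro p t ht
        exact h_norm σ hσ p t (by simpa using ht) (ω p) (hω p)
  · have h1 : (fun q : (Nat.Primes → ℂ) × ℂ => S σ q.1 q.2) =
        fun q => (∑' p : Nat.Primes, h σ p (q.1 p) q.2) / (2 * I) := by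
      funext q
      exact S_eq σ q.1 q.2
    rw [h1]
    refine ContinuousOn.div_const ?_ _
    refine continuousOn_tsum (u := fun p => 3 * u p) ?_ (summable_u.mul_left 3) ?_
    · intro p
      have hL : ∀ c : ℂ, ‖c‖ ≤ 1 → ContinuousOn (fun q : (Nat.Primes → ℂ) × ℂ => L σ c p (q.1 p) q.2)
          ({ω | ∀ p, ‖ω p‖ ≤ 1} ×ˢ ball (0 : ℂ) 1) := by
        intro c hc
        unfold L
        refine ContinuousOn.clog ?_ ?_
        · refine Continuous.continuousOn ?_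
          refine continuous_const.sub (((continuous_apply p).comp continuous_fst).mul ?_)
          unfold ex
          refine Continuous.const_cpow ?_ (Or.inl (by exact_mod_cast p.2.ne_zero))
          exact (continuous_const.add (continuous_const.mul continuous_snd)).neg
        · rintro ⟨ω, t⟩ ⟨hω, ht⟩
          exact slit σ hσ c hc p t (by simpa using ht) (ω p) (hω p)
      exact (hL I nI).sub (hL (-I) nI')
    · rintro p ⟨ω, t⟩ ⟨hω, ht⟩
      exact h_norm σ hσ p t (by simpa using ht) (ω p) (hω p)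

end Pool.Agent.W460.AI.SGD
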